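import Pool.Agent.helper95.PY2.Spec

/-!
# Project py2 (MP_f6e9a2_nt), row MOM: moments of the correlations at even and odd residues
-/

set_option autoImplicit false

open Finset Pool.Agent.helper82.Weil

namespace Pool.Agent.PY2

private theorem MOM_app_sum {F : Type*} [Field F] [Fintype F] {k : ℕ} (x y : Fin k → F)
    (hpar : ∀ i j : Fin k, x i ≠ x j + 1 ∧ x i ≠ y j + 1 ∧ y i ≠ x j + 1 ∧ y i ≠ y j + 1)
    (h : Nondeg x y) :
    Nondeg (Fin.append x (fun i => y i + 1)) (Fin.append y (fun i => x i + 1)) := by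
  obtain ⟨i₀, hi₀⟩ := h
  rcases i₀ with j | j
  · refine ⟨Sum.inl (Fin.castAdd k j), ?_⟩
    rintro (i | i) hi
    · simp only [Sum.elim_inl, Fin.append_left]
      induction i using Fin.addCases with
      | left i =>
        rw [Fin.append_left]
        have hne : i ≠ j := by
          rintro rfl
          exact hi rfl
        have := hi₀ (Sum.inl i) (by simpa using hne)
        simpa using this
      | right i =>
        rw [Fin.append_right]
        exact fun h => (hpar j i).2.1 h.symm
    · simp only [Sum.elim_inl, Sum.elim_inr, Fin.append_left]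
      induction i using Fin.addCases with
      | left i =>
        rw [Fin.append_left]
        have := hi₀ (Sum.inr i) (by simp)
        simpa using this
      | right i =>
        rw [Fin.append_right]
        exact fun h => (hpar j i).1 h.symm
  · refine ⟨Sum.inr (Fin.castAdd k j), ?_⟩
    rintro (i | i) hi
    · simp only [Sum.elim_inl, Sum.elim_inr, Fin.append_left]
      induction i using Fin.addCases with
      | left i =>
        rw [Fin.append_left]
        have := hi₀ (Sum.inl i) (by simp)
        simpa using this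
      | right i =>
        rw [Fin.append_right]
        exact fun h => (hpar j i).2.2.2 h.symm
    · simp only [Sum.elim_inr, Fin.append_left]
      induction i using Fin.addCases with
      | left i =>
        rw [Fin.append_left]
        have hne : i ≠ j := by
          rintro rfl
          exact hi rfl
        have := hi₀ (Sum.inr i) (by simpa using hne)
        simpa using this
      | right i =>
        rw [Fin.append_right]
        exact fun h => (hpar j i).2.2.1 h.symm

private theorem MOM_gen {F : Type*} [Field F] [Fintype F] (χ : MulChar F ℂ) (hχ : χ ≠ 1) (k : ℕ)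
    (A : Finset F) (hpar : ∀ a ∈ A, ∀ b ∈ A, a ≠ b + 1) :
    ∑ u : F, ‖∑ a ∈ A, χ (a + u) * (starRingEnd ℂ) (χ (a + 1 + u))‖ ^ (2 * k) ≤
      (k : ℝ) ^ (2 * k) * (A.card : ℝ) ^ k * (Fintype.card F : ℝ) +
        (A.card : ℝ) ^ (2 * k) * (4 * k * Real.sqrt (Fintype.card F)) := by
  classical
  have h1 : ((∑ u : F, ‖∑ a ∈ A, χ (a + u) * (starRingEnd ℂ) (χ (a + 1 + u))‖ ^ (2 * k) : ℝ) : ℂ) =
      ∑ x ∈ Fintype.piFinset fun _ : Fin k => A, ∑ y ∈ Fintype.piFinset fun _ : Fin k => A,
        ZZ χ (Fin.append x (fun i => y i + 1)) (Fin.append y (fun i => x i + 1)) := by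
    push_cast
    have h2 : ∀ u : F, ((‖∑ a ∈ A, χ (a + u) * (starRingEnd ℂ) (χ (a + 1 + u))‖ : ℝ) : ℂ) ^ (2 * k) =
        ∑ x ∈ Fintype.piFinset fun _ : Fin k => A, ∑ y ∈ Fintype.piFinset fun _ : Fin k => A,
          (∏ i : Fin (k + k), χ (Fin.append x (fun i => y i + 1) i + u)) *
            (starRingEnd ℂ) (∏ i : Fin (k + k), χ (Fin.append y (fun i => x i + 1) i + u)) := by
      intro u
      rw [pow_mul, ← Complex.mul_conj', mul_pow, ← map_pow, Finset.sum_pow', map_sum,
        Finset.sum_mul_sum]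
      refine Finset.sum_congr rfl fun x _ => Finset.sum_congr rfl fun y _ => ?_
      rw [Fin.prod_univ_add, Fin.prod_univ_add]
      simp only [Fin.append_left, Fin.append_right, Finset.prod_mul_distrib, map_mul, map_prod,
        Complex.conj_conj]
      ring
    simp_rw [h2]
    rw [Finset.sum_comm]
    refine Finset.sum_congr rfl fun x _ => ?_
    rw [Finset.sum_comm]
    rfl
  have h3 : ∑ u : F, ‖∑ a ∈ A, χ (a + u) * (starRingEnd ℂ) (χ (a + 1 + u))‖ ^ (2 * k) =
      ‖((∑ u : F, ‖∑ a ∈ A, χ (a + u) * (starRingEnd ℂ) (χ (a + 1 + u))‖ ^ (2 * k) : ℝ) : ℂ)‖ := by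
    rw [Complex.norm_real, Real.norm_eq_abs, abs_of_nonneg]
    exact Finset.sum_nonneg fun _ _ => by positivity
  rw [h3, h1]
  refine (norm_sum_le _ _).trans ?_
  refine (Finset.sum_le_sum fun x _ => norm_sum_le _ _).trans ?_
  rw [← Finset.sum_product', ← Finset.sum_filter_not_add_sum_filter _
    (fun xy : (Fin k → F) × (Fin k → F) => Nondeg xy.1 xy.2)]
  refine add_le_add ?_ ?_
  · have h1 : ∀ xy ∈ ((Fintype.piFinset fun _ : Fin k => A) ×ˢ
        (Fintype.piFinset fun _ : Fin k => A)).filter (fun xy => ¬ Nondeg xy.1 xy.2),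
        ‖ZZ χ (Fin.append xy.1 (fun i => xy.2 i + 1)) (Fin.append xy.2 (fun i => xy.1 i + 1))‖ ≤
          (Fintype.card F : ℝ) := by
      intro xy _
      exact ZZ_trivial χ _ _
    refine (Finset.sum_le_sum h1).trans ?_
    rw [Finset.sum_const, nsmul_eq_mul]
    apply mul_le_mul_of_nonneg_right _ (by positivity)
    exact_mod_cast card_degenerate A
  · have h1 : ∀ xy ∈ ((Fintype.piFinset fun _ : Fin k => A) ×ˢ
        (Fintype.piFinset fun _ : Fin k => A)).filter (fun xy => Nondeg xy.1 xy.2),
        ‖ZZ χ (Fin.append xy.1 (fun i => xy.2 i + 1)) (Fin.append xy.2 (fun i => xy.1 i + 1))‖ ≤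
          4 * k * Real.sqrt (Fintype.card F) := by
      intro xy hxy
      rw [Finset.mem_filter, Finset.mem_product, Fintype.mem_piFinset, Fintype.mem_piFinset] at hxy
      obtain ⟨⟨hx, hy⟩, hn⟩ := hxy
      refine (ZZ_bound χ hχ _ _ (MOM_app_sum xy.1 xy.2 (fun i j => ⟨hpar _ (hx i) _ (hx j),
        hpar _ (hx i) _ (hy j), hpar _ (hy i) _ (hx j), hpar _ (hy i) _ (hy j)⟩) hn)).trans ?_
      push_cast
      exact le_of_eq (by ring)
    refine (Finset.sum_le_sum h1).trans ?_
    rw [Finset.sum_const, nsmul_eq_mul]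
    apply mul_le_mul_of_nonneg_right _ (by positivity)
    have h2 : (((Fintype.piFinset fun _ : Fin k => A) ×ˢ
        (Fintype.piFinset fun _ : Fin k => A)).filter
        (fun xy : (Fin k → F) × (Fin k → F) => Nondeg xy.1 xy.2)).card ≤ A.card ^ (2 * k) := by
      refine (Finset.card_filter_le _ _).trans ?_
      rw [Finset.card_product, Fintype.card_piFinset]
      simp only [Finset.prod_const, Finset.card_univ, Fintype.card_fin]
      rw [← pow_add, two_mul]
    exact_mod_cast h2

theorem MOM : MOM_stmt := by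
  intro p _ χ hχ k V _ hV
  classical
  have hcast : ∀ a b : ℕ, a < p → b < p → ((a : ℕ) : ZMod p) = ((b : ℕ) : ZMod p) → a = b := by
    intro a b ha hb h
    have := (ZMod.natCast_eq_natCast_iff' a b p).mp h
    rwa [Nat.mod_eq_of_lt ha, Nat.mod_eq_of_lt hb] at this
  have hinj : Set.InjOn (fun v : ℕ => ((2 * v : ℕ) : ZMod p)) (Icc 1 V : Finset ℕ) := by
    intro v hv w hw h
    rw [Finset.mem_coe, Finset.mem_Icc] at hv hw
    have := hcast (2 * v) (2 * w) (by omega) (by omega) h
    omega
  have hcard : ((Icc 1 V).image (fun v : ℕ => ((2 * v : ℕ) : ZMod p))).card = V := by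
    rw [Finset.card_image_of_injOn hinj, Nat.card_Icc]
    omega
  have key := MOM_gen χ hχ k ((Icc 1 V).image (fun v : ℕ => ((2 * v : ℕ) : ZMod p))) (by
    intro a ha b hb h
    rw [Finset.mem_image] at ha hb
    obtain ⟨v, hv, rfl⟩ := ha
    obtain ⟨w, hw, rfl⟩ := hb
    rw [Finset.mem_Icc] at hv hw
    have h2 : ((2 * v : ℕ) : ZMod p) = ((2 * w + 1 : ℕ) : ZMod p) := by
      rw [h]; push_cast; ring
    have := hcast (2 * v) (2 * w + 1) (by omega) (by omega) h2
    omega)
  rw [hcard, ZMod.card] at key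
  refine le_trans (le_of_eq ?_) key
  refine Finset.sum_congr rfl fun x _ => ?_
  rw [Finset.sum_image hinj]
  unfold Ph
  congr 2
  refine Finset.sum_congr rfl fun v _ => ?_
  push_cast
  rfl

end Pool.Agent.PY2
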